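import Mathlib
import Pool.Agent.H35.WGADefs
import Pool.Agent.H35.WGASuff
import Pool.Agent.H35.WGANec
import Pool.Agent.H35.WGAL2

set_option autoImplicit false

namespace Pool.Agent.Results.MP_d1960f_an.WeaknessCriterion

open Pool.Agent.H35.WGA
open MeasureTheory Filter Topology
open scoped InnerProductSpace

/-- Necessity: for a sequence in the class `V` there is a divergent realization with respect to
the bilinear dictionary. -/
theorem not_converges_of_classV {t : ℕ → ℝ} (ht0 : ∀ k, 0 ≤ t k) (ht1 : ∀ k, t k ≤ 1)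
    (hV : ClassV t) : ¬ Converges bilinearDictionary t := by
  obtain ⟨s, c, B, hstep, hsB, hB0, htB, hsum, hlow⟩ := exists_path ht0 ht1 hV
  obtain ⟨e, he⟩ := exists_orthonormal
  set x : ℕ ⊕ ℕ → L2I := e ∘ Equiv.natSumNatEquivNat with hx
  have hxo : Orthonormal ℝ x := he.comp _ Equiv.natSumNatEquivNat.injective
  have ho : Orthonormal ℝ (fun k => TT (x k) (x k)) := by
    have h1 := hxo
    rw [orthonormal_iff_ite] at h1 ⊢
    intro i j
    rw [TT_inner, h1]
    by_cases h : i = j <;> simp [h]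
  have hsummable : Summable (fun k => s 0 k • TT (x k) (x k)) := by
    have h1 := ho.orthogonalFamily.summable_iff_norm_sq_summable (fun k => s 0 k)
    have h2 : Summable fun k => ‖s 0 k‖ ^ 2 := by
      simpa only [Real.norm_eq_abs, sq_abs] using hsum
    have h3 := h1.2 h2
    simpa using h3
  obtain ⟨r, φ, h0, hφ, hc, hr, hrep⟩ := realize TT TT_inner hstep hxo hxo hsummable.hasSum
  intro hconv
  have hwga : IsWGA bilinearDictionary t (r 0) r φ := by
    refine ⟨rfl, ?_, ?_, ?_⟩
    · intro m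
      obtain ⟨u, v, hu, hv, huv⟩ := hφ m
      exact mem_dict_iff.2 ⟨u, v, hu, hv, huv⟩
    · intro m
      obtain ⟨x', y', hx', hy', hsum'⟩ := hrep m
      have : Nonempty bilinearDictionary := by
        obtain ⟨u, v, hu, hv, huv⟩ := hφ m
        exact ⟨⟨φ m, mem_dict_iff.2 ⟨u, v, hu, hv, huv⟩⟩⟩
      have h1 : (⨆ g : bilinearDictionary, |⟪r m, (g : L2Sq)⟫_ℝ|) ≤ B m := by
        refine ciSup_le fun g => ?_
        obtain ⟨u, v, hu, hv, huv⟩ := mem_dict_iff.1 g.2
        rw [huv]
        exact abs_inner_le TT TT_inner hx' hy' hsum' (hB0 m) (hsB m) hu hv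
      calc t m * (⨆ g : bilinearDictionary, |⟪r m, (g : L2Sq)⟫_ℝ|) ≤ t m * B m :=
            mul_le_mul_of_nonneg_left h1 (ht0 m)
        _ ≤ c m := htB m
        _ ≤ |c m| := le_abs_self _
        _ = |⟪r m, φ m⟫_ℝ| := by rw [hc m]
    · intro m
      rw [hc m]
      exact hr m
  have hlim := hconv (r 0) r φ hwga
  have hlow' : ∀ m, 1 / 2 ≤ ‖r m‖ ^ 2 := by
    intro m
    obtain ⟨x', y', hx', hy', hsum'⟩ := hrep m
    obtain ⟨F, hF⟩ := hlow m
    exact le_trans hF (norm_sq_ge TT TT_inner hx' hy' hsum' F)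
  have h2 : Tendsto (fun m => ‖r m‖ ^ 2) atTop (𝓝 (0 ^ 2)) := hlim.pow 2
  have h3 : (1 / 2 : ℝ) ≤ 0 ^ 2 := ge_of_tendsto' h2 hlow'
  norm_num at h3

/-- The Weak Greedy Algorithm with weakness sequence `t` converges with respect to the bilinear
dictionary `Π_2` of `L_2([0,1]^2)` if and only if `t` is not in Temlyakov's class `V`. -/
theorem result :
    ∀ t : ℕ → ℝ, (∀ k, 0 ≤ t k ∧ t k ≤ 1) →
      (Converges bilinearDictionary t ↔ ¬ ClassV t) := by
  intro t ht
  constructor
  · intro hconv hV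
    exact not_converges_of_classV (fun k => (ht k).1) (fun k => (ht k).2) hV hconv
  · intro hV
    exact converges_of_not_classV dict_norm dict_total (fun k => (ht k).1) hV

end Pool.Agent.Results.MP_d1960f_an.WeaknessCriterion
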